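import Pool.Agent.helper64.D2.SpecR

set_option autoImplicit false

open Filter Topology
open scoped commutatorElement

namespace Pool.Agent.helper64.D2

theorem RC2_exp (x : ℝ) (h0 : 0 ≤ x) (h1 : x ≤ 1) : Real.exp x ≤ 1 + 2 * x := by
  have h := Real.abs_exp_sub_one_le (x := x) (by rw [abs_of_nonneg h0]; exact h1)
  have h2 := le_abs_self (Real.exp x - 1)
  rw [abs_of_nonneg h0] at h
  linarith

theorem RC2_cosh (t : ℝ) (ht : |t| ≤ 1) : Real.cosh t - 1 ≤ t ^ 2 := by
  have h1 : Real.cosh t ≤ Real.exp (t ^ 2 / 2) := Real.cosh_le_exp_half_sq t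
  have ht2 : t ^ 2 ≤ 1 := by
    have := abs_le.mp ht
    nlinarith
  have h2 := RC2_exp (t ^ 2 / 2) (by positivity) (by linarith)
  linarith

theorem RC2_sinh (e : ℝ) (he : |e| ≤ 1) : |Real.sinh e| ≤ 2 * |e| := by
  have h0 := abs_nonneg e
  have h1 := RC2_exp |e| h0 he
  rw [Real.abs_sinh]
  have h2 : Real.sinh |e| = Real.exp |e| - Real.cosh |e| := by
    have h4 := Real.cosh_add_sinh |e|
    linarith
  have h3 := Real.one_le_cosh |e|
  rw [h2]
  linarith

theorem RC2 : RC2_stmt := by
  refine ⟨?_, ?_, ?_⟩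
  · intro z e η Z he hη hz hZ
    have he1 : |e| ≤ 1 := he.trans hη
    have h0e := abs_nonneg e
    have hη0 : 0 ≤ η := h0e.trans he
    have hs : |Real.sinh e| ≤ 2 * |e| := RC2_sinh e he1
    have hce : Real.cosh e + |Real.sinh e| ≤ 1 + 2 * η := by
      have h1 := RC2_exp |e| h0e he1
      rw [Real.abs_sinh, ← Real.cosh_abs e, Real.cosh_add_sinh]
      linarith
    have hc1 : Real.cosh e - 1 ≤ η := by
      have h1 := RC2_cosh e he1
      have h2 : e ^ 2 ≤ η := by
        rw [← sq_abs]
        nlinarith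
      linarith
    have hsz : |Real.sinh z| ≤ (Real.cosh z - 1) + |z| := by
      rw [Real.abs_sinh, ← Real.cosh_abs z]
      have h1 : Real.cosh |z| - Real.sinh |z| = Real.exp (-|z|) := Real.cosh_sub_sinh |z|
      have h2 := Real.add_one_le_exp (-|z|)
      linarith
    have hcz : 0 ≤ Real.cosh z - 1 := by
      have := Real.one_le_cosh z
      linarith
    have hprod : Real.sinh z * Real.sinh e ≤ ((Real.cosh z - 1) + |z|) * |Real.sinh e| := by
      calc Real.sinh z * Real.sinh e ≤ |Real.sinh z * Real.sinh e| := le_abs_self _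
        _ = |Real.sinh z| * |Real.sinh e| := abs_mul _ _
        _ ≤ _ := mul_le_mul_of_nonneg_right hsz (abs_nonneg _)
    have h4 : |z| * |Real.sinh e| ≤ Z * (2 * η) := by
      have h5 : |Real.sinh e| ≤ 2 * η := by linarith
      exact mul_le_mul hz h5 (abs_nonneg _) (by linarith)
    have h6 : (Real.cosh z - 1) * (Real.cosh e + |Real.sinh e|) ≤ (Real.cosh z - 1) * (1 + 2 * η) :=
      mul_le_mul_of_nonneg_left hce hcz
    have h7 : η ≤ η * Z := by nlinarith
    rw [Real.cosh_add]
    nlinarith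
  · exact RC2_cosh
  · intro t
    rw [Real.cosh_eq]
    have := Real.exp_pos (-t)
    linarith

end Pool.Agent.helper64.D2
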