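import Pool.Agent.helper64.D2.SpecD

/-!
# Project dc: (MP_5823cb_al), module SLQ
-/

set_option autoImplicit false

open Filter Topology
open scoped commutatorElement

namespace Pool.Agent.helper64.D2

theorem SLQ_pow (l : ℕ) : 7 ≤ l → 12 * l ≤ 2 ^ l := by
  intro h
  induction l, h using Nat.le_induction with
  | base => norm_num
  | succ n hn ih =>
    rw [pow_succ]
    omega

theorem SLQ_log {b : ℕ} (hb : 100 ≤ b) : 12 * Nat.log 2 b ≤ b := by
  have h1 : 2 ^ Nat.log 2 b ≤ b := Nat.pow_log_le_self 2 (by omega)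
  rcases Nat.lt_or_ge (Nat.log 2 b) 7 with h | h
  · omega
  · exact (SLQ_pow _ h).trans h1

theorem SLQ_mm {b : ℕ} (hb : 100 ≤ b) : mm b ≤ 7 * b + 104 := by
  have := SLQ_log hb
  unfold mm
  omega

theorem SLQ_mm2 {B b n : ℕ} (_hB : 0 < B) (h : b ≤ B * 2 ^ n) :
    mm b ≤ 84 * (Nat.log 2 B + 2 + n) + 20 := by
  have h1 : B < 2 ^ (Nat.log 2 B + 1) := Nat.lt_pow_succ_log_self (by norm_num) B
  have h2 : b < 2 ^ (Nat.log 2 B + 1 + n) := by
    rw [pow_add]
    exact lt_of_le_of_lt h (Nat.mul_lt_mul_of_pos_right h1 (by positivity))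
  have h3 : Nat.log 2 b < Nat.log 2 B + 1 + n + 1 := by
    rcases Nat.eq_zero_or_pos b with hb | hb
    · subst hb
      simp
    · have := Nat.log_lt_of_lt_pow (b := 2) (by omega) h2
      omega
  unfold mm
  omega

theorem SLQ (hBSQ : BSQ_stmt) : SLQ_stmt := by
  intro B hB
  obtain ⟨hmono, hlow, hup, -, -, hstep, -, -⟩ := hBSQ B (by omega)
  refine ⟨strictMono_nat_of_lt_succ fun i => ?_, ?_, ?_⟩
  · show ks B i < ks B i + mm (bs B (2 ^ (i + 1))) + 1
    omega
  · refine ⟨((84 * (Nat.log 2 B + 2) + 193 : ℕ) : ℝ), fun i => ?_⟩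
    have h : ks B i ≤ (84 * (Nat.log 2 B + 2) + 193) * 2 ^ i := by
      induction i with
      | zero =>
        show 4 ≤ _
        omega
      | succ i ih =>
        have h1 := SLQ_mm2 (by omega : 0 < B) (hup (2 ^ (i + 1)))
        have h2 : ks B (i + 1) = ks B i + mm (bs B (2 ^ (i + 1))) + 1 := rfl
        have h3 : 1 ≤ 2 ^ i := Nat.one_le_two_pow
        rw [h2]
        rw [pow_succ] at h1 ⊢
        have h4 : 84 * (Nat.log 2 B + 2) ≤ 84 * (Nat.log 2 B + 2) * 2 ^ i :=
          Nat.le_mul_of_pos_right _ (by omega)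
        nlinarith
    have h' : (ks B i : ℝ) ≤ (((84 * (Nat.log 2 B + 2) + 193) * 2 ^ i : ℕ) : ℝ) := by
      exact_mod_cast h
    refine h'.trans (le_of_eq ?_)
    push_cast
    ring
  · have h100 : ∀ n, 100 ≤ bs B n := fun n => by
      have := hlow n
      omega
    intro i
    induction i with
    | zero =>
      have h1 := SLQ_mm (h100 (2 ^ (0 + 1)))
      have h2 : ks B (0 + 1) = 4 + mm (bs B (2 ^ (0 + 1))) + 1 := rfl
      have h3 := h100 (2 ^ (0 + 1))
      rw [h2]
      omega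
    | succ i ih =>
      have h1 := SLQ_mm (h100 (2 ^ (i + 1 + 1)))
      have h2 : ks B (i + 1 + 1) = ks B (i + 1) + mm (bs B (2 ^ (i + 1 + 1))) + 1 := rfl
      have h3 := h100 (2 ^ (i + 1 + 1))
      have h4 : 2 ^ (i + 1) + 1 ≤ 2 ^ (i + 1 + 1) := by
        have : 1 ≤ 2 ^ (i + 1) := Nat.one_le_two_pow
        rw [pow_succ 2 (i + 1)]
        omega
      have h5 := hmono.monotone h4
      have h6 := (hstep (2 ^ (i + 1))).1
      rw [h2]
      omega

end Pool.Agent.helper64.D2
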